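import Mathlib
import Pool.Agent.V11101.JetH

/-!
# MP_a09116 : a (strongly) `D(a)`-nondegenerate quadric whose 1-jet map is nowhere a local
diffeomorphism

The quadric `Re w_j = z* A_j z` is encoded by the family `A` of Hermitian `n × n` matrices.
`theX`, `matK`, `matD`, `jet` are the matrices `X`, `K_j`, the `D(a)`-matrix and the real 1-jet
map `j_1` of the problem.  Norms of matrices are operator norms (for the Euclidean norm of `ℂⁿ`).
-/

open Filter Topology Matrix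
open scoped ComplexConjugate Matrix.Norms.L2Operator

namespace Pool.Agent.Results.MP_a09116_an.OneJetSingular

variable {n d : ℕ}

/-- `P = ∑_j a_j A_j`. -/
noncomputable def matP (A : Fin d → Matrix (Fin n) (Fin n) ℂ) (a : Fin d → ℂ) :
    Matrix (Fin n) (Fin n) ℂ :=
  ∑ j, a j • A j

/-- `A = ∑_j (b_j - a_j - conj a_j) A_j`. -/
noncomputable def matA (A : Fin d → Matrix (Fin n) (Fin n) ℂ) (b : Fin d → ℝ) (a : Fin d → ℂ) :
    Matrix (Fin n) (Fin n) ℂ :=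
  ∑ j, ((b j : ℂ) - a j - conj (a j)) • A j

/-- `X` satisfies `‖X‖ < 1` and `P X² + A X + P* = 0`. -/
def IsX (A : Fin d → Matrix (Fin n) (Fin n) ℂ) (b : Fin d → ℝ) (a : Fin d → ℂ)
    (X : Matrix (Fin n) (Fin n) ℂ) : Prop :=
  ‖X‖ < 1 ∧ matP A a * X ^ 2 + matA A b a * X + (matP A a)ᴴ = 0

/-- The matrix `X` attached to `a` (and `0` if there is none). -/
noncomputable def theX (A : Fin d → Matrix (Fin n) (Fin n) ℂ) (b : Fin d → ℝ) (a : Fin d → ℂ) :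
    Matrix (Fin n) (Fin n) ℂ :=
  open Classical in if h : ∃ X, IsX A b a X then h.choose else 0

/-- `K_j = ∑_r X*^r A_j X^r`. -/
noncomputable def matK (A : Fin d → Matrix (Fin n) (Fin n) ℂ) (b : Fin d → ℝ) (a : Fin d → ℂ)
    (j : Fin d) : Matrix (Fin n) (Fin n) ℂ :=
  ∑' r : ℕ, (theX A b a)ᴴ ^ r * A j * theX A b a ^ r

/-- The real `d × d` matrix `(Re ∑_r V* X*^r A_j A⁻¹ A_s X^r V)_{j,s}`. -/
noncomputable def matD (A : Fin d → Matrix (Fin n) (Fin n) ℂ) (b : Fin d → ℝ) (a : Fin d → ℂ)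
    (V : Fin n → ℂ) : Matrix (Fin d) (Fin d) ℝ :=
  Matrix.of fun j s =>
    (∑' r : ℕ, star V ⬝ᵥ
      (((theX A b a)ᴴ ^ r * A j * (matA A b a)⁻¹ * A s * theX A b a ^ r) *ᵥ V)).re

/-- The real 1-jet map `j_1(a, V) = (V, (V* (1 - X*) K_j (1 - X) V)_j, Im a)`. -/
noncomputable def jet (A : Fin d → Matrix (Fin n) (Fin n) ℂ) (b : Fin d → ℝ)
    (p : (Fin d → ℂ) × (Fin n → ℂ)) : (Fin n → ℂ) × (Fin d → ℝ) × (Fin d → ℝ) :=
  (p.2,
    fun j => (star p.2 ⬝ᵥ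
      (((1 - (theX A b p.1)ᴴ) * matK A b p.1 j * (1 - theX A b p.1)) *ᵥ p.2)).re,
    fun j => (p.1 j).im)

open Pool.Agent.V11101.Jet

lemma isX_iff (A : Fin d → Matrix (Fin n) (Fin n) ℂ) (b : Fin d → ℝ) (a : Fin d → ℂ)
    (X : Matrix (Fin n) (Fin n) ℂ) : IsX A b a X ↔ IsSol A b a X := Iff.rfl

lemma theX_eq (A : Fin d → Matrix (Fin n) (Fin n) ℂ) (b : Fin d → ℝ) (a : Fin d → ℂ) :
    theX A b a = Xo A b a := rfl

lemma jet_eq (A : Fin d → Matrix (Fin n) (Fin n) ℂ) (b : Fin d → ℝ) :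
    jet A b = jetM A b := rfl

lemma matD_eq (e : ℝ) (he : e < 1) (he0 : 0 ≤ e) (V : Fin 6 → ℂ) :
    matD (AF (e : ℂ)) (bF e) (aF (e : ℂ)) V
      = DM (AF (e : ℂ)) (bF e) (aF (e : ℂ)) (XX (e : ℂ)) V := by
  have hX : ‖XX (e : ℂ)‖ < 1 := lt_of_le_of_lt (XX_norm e he0) he
  have hXo : theX (AF (e : ℂ)) (bF e) (aF (e : ℂ)) = XX (e : ℂ) :=
    Xo_eq (AF_star e) (B_unit e he he0) (isSol_F e he he0)
  ext j s
  simp only [matD, DM, Matrix.of_apply, hXo]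
  congr 1
  have h1 := (qf V).map_tsum
    (summ (XX (e : ℂ)) (AF (e : ℂ) j * (AA (AF (e : ℂ)) (bF e) (aF (e : ℂ)))⁻¹ * AF (e : ℂ) s) hX)
  rw [KK, h1]
  refine tsum_congr fun r => ?_
  rw [qf_apply]
  simp only [mul_assoc]
  rfl

/-- **Both versions of the question have a negative answer.**  For every `δ > 0` there are a
quadric in `ℂ^{6+5}`, given by linearly independent Hermitian matrices `A_1, …, A_5` of size `6`,
a vector `b` with `∑ b_j A_j` invertible, and `a` with `‖a‖ < δ` (while the entries of the `A_j`, of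
`b` and of `(∑ b_j A_j)⁻¹` stay bounded by `4`), such that the solution `X` exists and is unique for
all `a'` near `a`, the quadric is strongly `D(a)`-nondegenerate, and yet for every `V` the
differential of the 1-jet map at `(a, V)` exists and has a nonzero kernel. -/
theorem result (δ : ℝ) (hδ : 0 < δ) :
    ∃ (A : Fin 5 → Matrix (Fin 6) (Fin 6) ℂ) (b : Fin 5 → ℝ) (a : Fin 5 → ℂ),
      (∀ j, (A j).IsHermitian) ∧ LinearIndependent ℝ A ∧ IsUnit (∑ j, (b j : ℂ) • A j) ∧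
      ‖a‖ < δ ∧ (∀ j i k, ‖A j i k‖ ≤ 4) ∧ (∀ j, |b j| ≤ 4) ∧
      (∀ i k, ‖(∑ j, (b j : ℂ) • A j)⁻¹ i k‖ ≤ 4) ∧
      (∀ᶠ a' in 𝓝 a, ∃! X, IsX A b a' X) ∧
      (∃ V, (matD A b a V).PosDef) ∧
      ∀ V : Fin 6 → ℂ, DifferentiableAt ℝ (jet A b) (a, V) ∧
        ∃ w : (Fin 5 → ℂ) × (Fin 6 → ℂ), w ≠ 0 ∧ fderiv ℝ (jet A b) (a, V) w = 0 := by
  obtain ⟨e, he0, he1, heδ⟩ : ∃ e : ℝ, 0 < e ∧ e ≤ 1 / 2 ∧ e < δ :=
    ⟨min (1 / 2) (δ / 2), by positivity, min_le_left _ _,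
      lt_of_le_of_lt (min_le_right _ _) (by linarith)⟩
  have he : e < 1 := by linarith
  obtain ⟨hex, hsing⟩ := main_sing e he he0.le
  refine ⟨AF (e : ℂ), bF e, aF (e : ℂ), fun j => AF_star e j, linInd_F e, B_unit e he he0.le,
    ?_, ?_, ?_, ?_, hex, ⟨VF e, ?_⟩, hsing⟩
  · rw [pi_norm_lt_iff hδ]
    intro j
    fin_cases j <;> simp [aF, abs_of_pos he0, hδ, heδ]
  · exact fun j i k => AF_bound e he0 he1 j i k
  · intro j
    fin_cases j <;> simp [bF, abs_of_pos he0]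
    linarith
  · exact fun i k => BI_bound e he0 he1 i k
  · rw [matD_eq e he he0.le]
    exact DM_pos e he he0

end Pool.Agent.Results.MP_a09116_an.OneJetSingular
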